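import Pool.Agent.H420_NCF.MainQ
import Pool.Agent.H420_NCF.MainF
import Pool.Agent.H420_NCF.Letters

/-!
# Sparse noncommutative polynomials are factored in deterministic polynomial time

Over the rationals and over every fixed finite field, a Turing machine running in polynomial time
finds a factorisation of a given nonconstant polynomial in noncommuting indeterminates, given by
the list of its terms, into irreducible polynomials.
-/

namespace Pool.Agent.Results.MP_825bd2_lc.FactorPolyTime

open Pool.Agent.NPC

/-- The polynomial in the noncommuting indeterminates `x_0, x_1, x_2, ...` with the given list of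
terms. A term is a word, given as the list of the indices of its letters, with a coefficient. -/
noncomputable def poly {k : Type} [Field k] (p : List (List ℕ × k)) :
    MonoidAlgebra k (FreeMonoid ℕ) :=
  (p.map fun t => MonoidAlgebra.single (FreeMonoid.ofList t.1) t.2).sum

/-- The list of terms is a sparse representation: the words are pairwise different and the
coefficients are nonzero. -/
def IsSparse {k : Type} [Field k] (p : List (List ℕ × k)) : Prop :=
  (p.map fun t => t.1).Nodup ∧ ∀ t ∈ p, t.2 ≠ 0

/-- A Turing machine running in polynomial time maps every list of terms `f` of a nonconstant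
polynomial to a list of sparse representations of irreducible polynomials, the product of which
(in this order) is the polynomial of `f`; only letters occurring in `f` are used. -/
def FactorsInPolyTime (k : Type) [Field k] [TEnc k] : Prop :=
  ∃ F : List (List ℕ × k) → List (List (List ℕ × k)),
    Nonempty (Turing.TM2ComputableInPolyTime (bits : List (List ℕ × k) → List Bool)
      (bits : List (List (List ℕ × k)) → List Bool) F) ∧
    ∀ f : List (List ℕ × k), (∀ c : k, poly f ≠ algebraMap k _ c) →
      ((F f).map poly).prod = poly f ∧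
      ∀ g ∈ F f, IsSparse g ∧ Irreducible (poly g) ∧
        ∀ t ∈ g, ∀ x ∈ t.1, ∃ s ∈ f, x ∈ s.1

open Pool.Agent.H420_NCF

theorem single_eq {k : Type} [Field k] (w : List ℕ) (c : k) :
    (MonoidAlgebra.single (FreeMonoid.ofList w) c : NC k) = c • mon w := by
  rw [mon, MonoidAlgebra.smul_single, smul_eq_mul, mul_one]

theorem poly_eq {k : Type} [Field k] (p : List (List ℕ × k)) :
    poly p = (p.map fun t => t.2 • (mon t.1 : NC k)).sum := by
  unfold poly
  congr 1
  exact List.map_congr_left fun t _ => single_eq t.1 t.2

theorem cf_poly {k : Type} [Field k] (p : List (List ℕ × k)) (w : List ℕ) :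
    cf w (poly p) = ((p.filter fun t => decide (t.1 = w)).map fun t => t.2).sum := by
  rw [poly_eq]
  induction p with
  | nil => simp
  | cons t p ih =>
    rw [List.map_cons, List.sum_cons, map_add, map_smul, ih, cf_mon, List.filter_cons]
    by_cases h : t.1 = w
    · simp [h]
    · simp [h]

theorem cf_poly_of_mem {k : Type} [Field k] {p : List (List ℕ × k)} (hp : IsSparse p)
    {t : List ℕ × k} (ht : t ∈ p) : cf t.1 (poly p) ≠ 0 := by
  obtain ⟨h1, h2⟩ := hp
  have key : cf t.1 (poly p) = t.2 := by
    rw [poly_eq]
    induction p with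
    | nil => simp at ht
    | cons s p ih =>
      rw [List.map_cons, List.nodup_cons] at h1
      have h0 : ∀ s' ∈ p, s'.1 ≠ s.1 := fun s' hs' h => h1.1 (by
        rw [List.mem_map]; exact ⟨s', hs', h⟩)
      have hz : ∀ (l : List (List ℕ × k)) (w : List ℕ), (∀ s' ∈ l, s'.1 ≠ w) →
          cf w ((l.map fun t => t.2 • (mon t.1 : NC k)).sum) = 0 := by
        intro l w hl
        induction l with
        | nil => simp
        | cons s' l ih' =>
          rw [List.map_cons, List.sum_cons, map_add, map_smul, cf_mon,
            if_neg (hl s' (by simp)), smul_zero, zero_add]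
          exact ih' fun s'' hs'' => hl s'' (by simp [hs''])
      rw [List.map_cons, List.sum_cons, map_add, map_smul, cf_mon]
      rcases List.mem_cons.1 ht with rfl | ht
      · rw [if_pos rfl, hz p t.1 h0]; simp
      · rw [if_neg (fun h => h0 t ht h.symm), smul_zero, zero_add]
        exact ih ht h1.2 fun s' hs' => h2 s' (by simp [hs'])
  rw [key]
  exact h2 t ht

theorem letters {k : Type} [Field k] {f : List (List ℕ × k)} {L : List (List (List ℕ × k))}
    (hL : (L.map poly).prod = poly f) (hf : poly f ≠ 0) {g : List (List ℕ × k)} (hg : g ∈ L)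
    (hs : IsSparse g) : ∀ t ∈ g, ∀ x ∈ t.1, ∃ s ∈ f, x ∈ s.1 := by
  intro t ht x hx
  have h1 := cf_poly_of_mem hs ht
  rw [← hL] at hf
  obtain ⟨a, b, hab⟩ := Letters.prod hf (List.mem_map.2 ⟨g, hg, rfl⟩) h1
  rw [hL, cf_poly] at hab
  have h2 : ∃ s ∈ f, s.1 = a ++ t.1 ++ b := by
    by_contra h
    push Not at h
    apply hab
    rw [List.filter_eq_nil_iff.2 (fun s hs => by simpa using h s hs)]
    simp
  obtain ⟨s, hs, hs'⟩ := h2
  exact ⟨s, hs, by rw [hs']; simp [hx]⟩

theorem algebraMap_eq {k : Type} [Field k] (c : k) :
    algebraMap k (MonoidAlgebra k (FreeMonoid ℕ)) c = c • (1 : NC k) := by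
  rw [Algebra.algebraMap_eq_smul_one]

/-- **Sparse polynomials in noncommuting indeterminates over the rationals, and over every fixed
finite field, are factored into irreducible polynomials in deterministic polynomial time.** -/
theorem result : FactorsInPolyTime ℚ ∧
    ∀ (K : Type) [Field K] [Finite K] [TEnc K], FactorsInPolyTime K := by
  constructor
  · obtain ⟨F, hF, h⟩ := finalQ
    refine ⟨F, NPC.H532.Poly.toTM hF, fun f hf => ?_⟩
    have e : ∀ p : List (List ℕ × ℚ), polQ p = poly p := fun p => (poly_eq p).symm
    obtain ⟨h1, h2⟩ := h f fun c hc => hf c (by rw [← e, hc, algebraMap_eq])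
    have e' : (polQ : List (List ℕ × ℚ) → NC ℚ) = poly := funext e
    rw [e'] at h2
    have h0 : poly f ≠ 0 := fun h => hf 0 (by rw [h, map_zero])
    refine ⟨h2, fun g hg => ?_⟩
    have h3 := h1 g hg
    rw [e] at h3
    exact ⟨h3.2, h3.1, letters h2 h0 hg h3.2⟩
  · intro K _ _ _
    classical
    obtain ⟨F, hF, h⟩ := FF.finalF K
    refine ⟨F, NPC.H532.Poly.toTM hF, fun f hf => ?_⟩
    have e : ∀ p : List (List ℕ × K), FF.pol p = poly p := fun p => (poly_eq p).symm
    obtain ⟨h1, h2⟩ := h f fun c hc => hf c (by rw [← e, hc, algebraMap_eq])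
    have e' : (FF.pol : List (List ℕ × K) → NC K) = poly := funext e
    rw [e'] at h2
    have h0 : poly f ≠ 0 := fun h => hf 0 (by rw [h, map_zero])
    refine ⟨h2, fun g hg => ?_⟩
    have h3 := h1 g hg
    rw [e] at h3
    exact ⟨h3.2, h3.1, letters h2 h0 hg h3.2⟩

end Pool.Agent.Results.MP_825bd2_lc.FactorPolyTime
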